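import Pool.Agent.H33.SMS.Targets

/-! Row DIV of board sms_modules. -/

set_option autoImplicit false

namespace Pool.Agent.H69.SMS

open Pool.Agent.H33.SMS Pool.Agent.H14.MT

lemma dvd_descFactorial (n t : ℕ) : n ∣ n.descFactorial (t + 1) := by
  cases n with
  | zero => simp
  | succ n =>
    rw [Nat.succ_descFactorial_succ]
    exact Dvd.intro _ rfl

lemma dvd_fac (n t r : ℕ) (h : t + 1 ≤ r) : n ∣ r.factorial * n.choose (t + 1) := by
  have h1 : n ∣ (t + 1).factorial * n.choose (t + 1) := by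
    rw [← Nat.descFactorial_eq_factorial_mul_choose]
    exact dvd_descFactorial n t
  exact h1.trans (Nat.mul_dvd_mul_right (Nat.factorial_dvd_factorial h) _)

theorem pf_DIV : T_DIV := by
  intro n s k hs hG
  obtain ⟨r, rfl⟩ : ∃ r, s = r + 1 := ⟨s - 1, by omega⟩
  rw [show r + 1 - 1 = r by omega]
  unfold G at hG
  rw [Finset.sum_range_succ] at hG
  have e1 : r + 1 - 1 - r = 0 := by omega
  rw [e1, Nat.choose_zero_right] at hG
  have h1 : (n : ℤ) ∣ (r.factorial : ℤ) * ∑ i ∈ Finset.range r,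
      (-1) ^ i * ((i : ℤ) + 1) ^ k * (n.choose (r + 1 - 1 - i) : ℤ) := by
    rw [Finset.mul_sum]
    refine Finset.dvd_sum fun i hi => ?_
    have hi' := Finset.mem_range.1 hi
    obtain ⟨t, ht⟩ : ∃ t, r + 1 - 1 - i = t + 1 := ⟨r - i - 1, by omega⟩
    rw [ht]
    have h2 : (n : ℤ) ∣ (r.factorial : ℤ) * (n.choose (t + 1) : ℤ) := by
      exact_mod_cast dvd_fac n t r (by omega)
    obtain ⟨c, hc⟩ := h2
    refine ⟨c * ((-1) ^ i * ((i : ℤ) + 1) ^ k), ?_⟩
    calc (r.factorial : ℤ) * ((-1) ^ i * ((i : ℤ) + 1) ^ k * (n.choose (t + 1) : ℤ))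
        = ((r.factorial : ℤ) * (n.choose (t + 1) : ℤ)) * ((-1) ^ i * ((i : ℤ) + 1) ^ k) := by ring
      _ = _ := by rw [hc]; ring
  have h3 : (r.factorial : ℤ) * ∑ i ∈ Finset.range r,
      (-1) ^ i * ((i : ℤ) + 1) ^ k * (n.choose (r + 1 - 1 - i) : ℤ)
      = -((-1) ^ r * ((r.factorial : ℤ) * ((r : ℤ) + 1) ^ k)) := by
    have h4 := eq_neg_of_add_eq_zero_left hG
    rw [h4]
    push_cast
    ring
  rw [h3, dvd_neg] at h1
  have h5 : (n : ℤ) ∣ (r.factorial : ℤ) * ((r : ℤ) + 1) ^ k := by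
    rcases neg_one_pow_eq_or ℤ r with h | h
    · rwa [h, one_mul] at h1
    · rwa [h, neg_one_mul, dvd_neg] at h1
  exact_mod_cast h5

end Pool.Agent.H69.SMS
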