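import Pool.Agent.H33.SMS.Targets

/-! Row GAP of board sms_modules. -/

set_option autoImplicit false

namespace Pool.Agent.H69.SMS

open Pool.Agent.H33.SMS Pool.Agent.H14.MT

lemma choose_logconcave (n m : ℕ) : n.choose (m + 2) * n.choose m ≤ n.choose (m + 1) ^ 2 := by
  rcases Nat.lt_or_ge m n with h | h
  · have h1 := Nat.choose_succ_right_eq n m
    have h2 := Nat.choose_succ_right_eq n (m + 1)
    set a := n.choose m
    set b := n.choose (m + 1)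
    set c := n.choose (m + 2)
    have h3 : c * a * ((m + 2) * (n - m)) = b ^ 2 * ((m + 1) * (n - (m + 1))) := by
      calc c * a * ((m + 2) * (n - m)) = (c * (m + 1 + 1)) * (a * (n - m)) := by ring
        _ = (b * (n - (m + 1))) * (b * (m + 1)) := by rw [h2, h1]
        _ = b ^ 2 * ((m + 1) * (n - (m + 1))) := by ring
    have h4 : (m + 1) * (n - (m + 1)) ≤ (m + 2) * (n - m) :=
      Nat.mul_le_mul (by omega) (by omega)
    have h5 : 0 < (m + 2) * (n - m) := Nat.mul_pos (by omega) (by omega)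
    refine Nat.le_of_mul_le_mul_right ?_ h5
    rw [h3]
    exact Nat.mul_le_mul_left _ h4
  · rw [Nat.choose_eq_zero_of_lt (show n < m + 2 by omega), zero_mul]
    exact Nat.zero_le _

theorem pf_GAP : T_GAP := by
  intro n s k i hi his
  obtain ⟨m, rfl⟩ : ∃ m, s = i + 2 + m := ⟨s - (i + 2), by omega⟩
  have e0 : i + 2 + m - i = m + 2 := by omega
  have e1 : i + 2 + m - (i + 1) = m + 1 := by omega
  have e2 : i + 2 + m - (i + 2) = m := by omega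
  rw [e0, e1, e2]
  have hs0 : (0 : ℝ) < ((i + 2 + m : ℕ) : ℝ) := by positivity
  set S : ℝ := ((i + 2 + m : ℕ) : ℝ) with hS
  have hi1 : ((i + 1 : ℕ) : ℝ) ≤ S := by
    rw [hS]
    exact_mod_cast (show i + 1 ≤ i + 2 + m by omega)
  have hbase : (i : ℝ) * ((i + 2 : ℕ) : ℝ) ≤ (1 - 1 / S ^ 2) * ((i + 1 : ℕ) : ℝ) ^ 2 := by
    have h1 : ((i + 1 : ℕ) : ℝ) ^ 2 / S ^ 2 ≤ 1 := by
      rw [div_le_one (by positivity)]
      exact pow_le_pow_left₀ (by positivity) hi1 2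
    have h2 : (1 - 1 / S ^ 2) * ((i + 1 : ℕ) : ℝ) ^ 2
        = ((i + 1 : ℕ) : ℝ) ^ 2 - ((i + 1 : ℕ) : ℝ) ^ 2 / S ^ 2 := by ring
    rw [h2]
    push_cast at h1 ⊢
    nlinarith
  have hc : ((n.choose (m + 2) : ℕ) : ℝ) * ((n.choose m : ℕ) : ℝ) ≤
      ((n.choose (m + 1) : ℕ) : ℝ) ^ 2 := by
    exact_mod_cast choose_logconcave n m
  have hpow : ((i : ℝ) * ((i + 2 : ℕ) : ℝ)) ^ k ≤
      ((1 - 1 / S ^ 2) * ((i + 1 : ℕ) : ℝ) ^ 2) ^ k :=
    pow_le_pow_left₀ (by positivity) hbase k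
  calc ((i : ℝ) ^ k * ((n.choose (m + 2) : ℕ) : ℝ)) *
        (((i + 2 : ℕ) : ℝ) ^ k * ((n.choose m : ℕ) : ℝ))
      = ((i : ℝ) * ((i + 2 : ℕ) : ℝ)) ^ k *
        (((n.choose (m + 2) : ℕ) : ℝ) * ((n.choose m : ℕ) : ℝ)) := by
        rw [mul_pow]; ring
    _ ≤ ((1 - 1 / S ^ 2) * ((i + 1 : ℕ) : ℝ) ^ 2) ^ k * ((n.choose (m + 1) : ℕ) : ℝ) ^ 2 := by
        refine mul_le_mul hpow hc (by positivity) (le_trans (by positivity) hpow)
    _ = (1 - 1 / S ^ 2) ^ k * (((i + 1 : ℕ) : ℝ) ^ k * ((n.choose (m + 1) : ℕ) : ℝ)) ^ 2 := by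
        rw [mul_pow, ← pow_mul, mul_pow, ← pow_mul, mul_comm 2 k]; ring

end Pool.Agent.H69.SMS
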